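import Mathlib

/-! Weighted sums over boxes and the weighted Loomis-Whitney inequality. -/

set_option autoImplicit false

namespace Pool.Agent.MP_f12303_co.Sh

open Finset Function

variable {n : ℕ}

/-- Points with coordinates in `I j` for `j ∈ s` and equal to those of `b` elsewhere. -/
def Bx (I : Fin n → Finset ℤ) (s : Finset (Fin n)) (b : Fin n → ℤ) : Finset (Fin n → ℤ) :=
  Fintype.piFinset fun j => if j ∈ s then I j else {b j}

theorem mem_Bx {I : Fin n → Finset ℤ} {s : Finset (Fin n)} {b y : Fin n → ℤ} :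
    y ∈ Bx I s b ↔ (∀ j ∈ s, y j ∈ I j) ∧ ∀ j ∉ s, y j = b j := by
  simp only [Bx, Fintype.mem_piFinset]
  constructor
  · intro h
    exact ⟨fun j hj => by simpa [hj] using h j, fun j hj => by simpa [hj] using h j⟩
  · rintro ⟨h1, h2⟩ j
    by_cases hj : j ∈ s
    · simpa [hj] using h1 j hj
    · simpa [hj] using h2 j hj

theorem sum_Bx_insert {I : Fin n → Finset ℤ} {s : Finset (Fin n)} {a : Fin n} (ha : a ∉ s)
    (b : Fin n → ℤ) (G : (Fin n → ℤ) → ℝ) :
    ∑ y ∈ Bx I (insert a s) b, G y = ∑ z ∈ Bx I s b, ∑ t ∈ I a, G (update z a t) := by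
  rw [← sum_product']
  refine sum_bij' (fun y _ => (update y a (b a), y a)) (fun p _ => update p.1 a p.2) ?_ ?_ ?_ ?_ ?_
  · intro y hy
    rw [mem_Bx] at hy
    refine mem_product.2 ⟨mem_Bx.2 ⟨fun j hj => ?_, fun j hj => ?_⟩, hy.1 a (mem_insert_self _ _)⟩
    · have : j ≠ a := fun e => ha (e ▸ hj)
      simpa [update_of_ne this] using hy.1 j (mem_insert_of_mem hj)
    · by_cases e : j = a
      · simp [e]
      · simpa [update_of_ne e] using hy.2 j (by simp [e, hj])
  · intro p hp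
    obtain ⟨h1, h2⟩ := mem_product.1 hp
    rw [mem_Bx] at h1 ⊢
    refine ⟨fun j hj => ?_, fun j hj => ?_⟩
    · by_cases e : j = a
      · simpa [e] using h2
      · simpa [update_of_ne e] using h1.1 j ((mem_insert.1 hj).resolve_left e)
    · rw [mem_insert, not_or] at hj
      simpa [update_of_ne hj.1] using h1.2 j hj.2
  · intro y _
    simp
  · intro p hp
    have := (mem_Bx.1 (mem_product.1 hp).1).2 a ha
    simp [← this]
  · intro y _
    simp

/-- Weighted sum over a box. -/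
def mu (w : Fin n → ℤ → ℝ) (I : Fin n → Finset ℤ) (s : Finset (Fin n)) (b : Fin n → ℤ)
    (G : (Fin n → ℤ) → ℝ) : ℝ := ∑ y ∈ Bx I s b, (∏ j ∈ s, w j (y j)) * G y

variable {w : Fin n → ℤ → ℝ} {I : Fin n → Finset ℤ} {s : Finset (Fin n)} {b : Fin n → ℤ}

theorem mu_insert' {a : Fin n} (ha : a ∉ s) (G : (Fin n → ℤ) → ℝ) :
    mu w I (insert a s) b G = mu w I s b fun z => ∑ t ∈ I a, w a t * G (update z a t) := by
  unfold mu
  rw [sum_Bx_insert ha]
  refine sum_congr rfl fun z _ => ?_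
  rw [mul_sum]
  refine sum_congr rfl fun t _ => ?_
  have : ∏ j ∈ s, w j (update z a t j) = ∏ j ∈ s, w j (z j) :=
    prod_congr rfl fun j hj => by rw [update_of_ne fun e : j = a => ha (e ▸ hj)]
  rw [prod_insert ha, update_self, this]
  ring

theorem mu_insert {a : Fin n} (ha : a ∉ s) (G : (Fin n → ℤ) → ℝ) :
    mu w I (insert a s) b G = ∑ t ∈ I a, w a t * mu w I s b fun z => G (update z a t) := by
  rw [mu_insert' ha]
  unfold mu
  simp only [mul_sum]
  rw [sum_comm]
  exact sum_congr rfl fun t _ => sum_congr rfl fun z _ => by ring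

theorem mu_empty (G : (Fin n → ℤ) → ℝ) : mu w I ∅ b G = G b := by
  have : Bx I ∅ b = {b} := by
    ext y
    simp [mem_Bx, funext_iff]
  simp [mu, this]

theorem mu_mono (hw : ∀ j t, 0 ≤ w j t) {G H : (Fin n → ℤ) → ℝ} (h : ∀ y, G y ≤ H y) :
    mu w I s b G ≤ mu w I s b H :=
  sum_le_sum fun y _ => mul_le_mul_of_nonneg_left (h y) (prod_nonneg fun j _ => hw j _)

theorem mu_nonneg (hw : ∀ j t, 0 ≤ w j t) {G : (Fin n → ℤ) → ℝ} (h : ∀ y, 0 ≤ G y) :
    0 ≤ mu w I s b G :=
  sum_nonneg fun y _ => mul_nonneg (prod_nonneg fun j _ => hw j _) (h y)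

open Classical in
/-- Real indicator. -/
noncomputable def ind (p : Prop) : ℝ := if p then 1 else 0

theorem ind_pos {p : Prop} (h : p) : ind p = 1 := if_pos h
theorem ind_neg {p : Prop} (h : ¬ p) : ind p = 0 := if_neg h
theorem ind_nonneg (p : Prop) : 0 ≤ ind p := by unfold ind; split_ifs <;> norm_num
theorem ind_mono {p q : Prop} (h : p → q) : ind p ≤ ind q := by
  by_cases hp : p
  · rw [ind_pos hp, ind_pos (h hp)]
  · rw [ind_neg hp]; exact ind_nonneg q

theorem amgm {ι : Type} {s : Finset ι} (hs : s.Nonempty) {z : ι → ℝ} (hz : ∀ i ∈ s, 0 ≤ z i) :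
    ∏ i ∈ s, z i ≤ ((∑ i ∈ s, z i) / s.card) ^ s.card := by
  have hN : s.card ≠ 0 := hs.card_pos.ne'
  have hN' : (s.card : ℝ) ≠ 0 := by exact_mod_cast hN
  have h := Real.geom_mean_le_arith_mean_weighted s (fun _ => (s.card : ℝ)⁻¹) z
    (fun _ _ => by positivity) (by simp [hN']) hz
  have h2 := pow_le_pow_left₀ (prod_nonneg fun i hi => Real.rpow_nonneg (hz i hi) _) h s.card
  rw [← prod_pow, prod_congr rfl fun i hi => Real.rpow_inv_natCast_pow (hz i hi) hN,
    ← mul_sum] at h2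
  rwa [div_eq_inv_mul]

theorem hold {ι : Type} {s : Finset ι} (hs : s.Nonempty) {T : Finset ℤ} {v m : ℤ → ℝ}
    {a : ι → ℤ → ℝ} {p : ℝ} (hv : ∀ t, 0 ≤ v t) (hm : ∀ t, 0 ≤ m t) (ha : ∀ i t, 0 ≤ a i t)
    (hp : 0 ≤ p) (h : ∀ t ∈ T, m t ^ s.card ≤ p * ∏ i ∈ s, a i t) :
    (∑ t ∈ T, v t * m t) ^ s.card ≤ p * ∏ i ∈ s, ∑ t ∈ T, v t * a i t := by
  have hN : s.card ≠ 0 := hs.card_pos.ne'
  have hN' : (0 : ℝ) < s.card := by exact_mod_cast hs.card_pos
  set q : ι → ℝ := fun i => ∑ t ∈ T, v t * a i t with hq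
  have q0 : ∀ i, 0 ≤ q i := fun i => sum_nonneg fun t _ => mul_nonneg (hv t) (ha i t)
  have hR : 0 ≤ p * ∏ i ∈ s, q i := mul_nonneg hp (prod_nonneg fun i _ => q0 i)
  by_cases hz : ∃ i ∈ s, q i = 0
  · obtain ⟨i, hi, e⟩ := hz
    have e' := (sum_eq_zero_iff_of_nonneg fun t _ => mul_nonneg (hv t) (ha i t)).1 e
    have : ∑ t ∈ T, v t * m t = 0 := by
      refine sum_eq_zero fun t ht => ?_
      rcases mul_eq_zero.1 (e' t ht) with r | r
      · rw [r, zero_mul]
      · have h1 := h t ht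
        rw [prod_eq_zero hi r, mul_zero] at h1
        rw [pow_eq_zero_iff hN |>.1 (le_antisymm h1 (pow_nonneg (hm t) _)), mul_zero]
    rw [this, zero_pow hN]
    exact hR
  · have qp : ∀ i ∈ s, 0 < q i := fun i hi => (q0 i).lt_of_ne fun e => hz ⟨i, hi, e.symm⟩
    obtain ⟨c, c0, hc⟩ : ∃ c : ℝ, 0 ≤ c ∧ c ^ s.card = p * ∏ i ∈ s, q i :=
      ⟨_, Real.rpow_nonneg hR _, Real.rpow_inv_natCast_pow hR hN⟩
    rw [← hc]
    refine pow_le_pow_left₀ (sum_nonneg fun t _ => mul_nonneg (hv t) (hm t)) ?_ _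
    have h1 : ∀ t ∈ T, m t ≤ c * ((∑ i ∈ s, a i t / q i) / s.card) := by
      intro t ht
      have z0 : ∀ i ∈ s, 0 ≤ a i t / q i := fun i _ => div_nonneg (ha i t) (q0 i)
      refine le_of_pow_le_pow_left₀ hN (mul_nonneg c0 (div_nonneg (sum_nonneg z0) hN'.le)) ?_
      rw [mul_pow, hc]
      refine (h t ht).trans (le_trans (le_of_eq ?_) (mul_le_mul_of_nonneg_left (amgm hs z0) hR))
      rw [mul_assoc, ← prod_mul_distrib]
      exact congrArg _ (prod_congr rfl fun i hi => (mul_div_cancel₀ _ (qp i hi).ne').symm)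
    calc ∑ t ∈ T, v t * m t ≤ ∑ t ∈ T, v t * (c * ((∑ i ∈ s, a i t / q i) / s.card)) :=
          sum_le_sum fun t ht => mul_le_mul_of_nonneg_left (h1 t ht) (hv t)
      _ = c / s.card * ∑ i ∈ s, q i / q i := by
          simp only [hq, sum_div, mul_sum]
          rw [sum_comm]
          exact sum_congr rfl fun i _ => sum_congr rfl fun t _ => by ring
      _ = c := by
          rw [sum_congr rfl fun i hi => div_self (qp i hi).ne']
          simp [hN'.ne']

/-- The weighted Loomis-Whitney inequality. -/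
theorem lw (hw : ∀ j t, 0 ≤ w j t) (hs : s.Nonempty) : ∀ A : (Fin n → ℤ) → Prop,
    mu w I s b (fun y => ind (A y)) ^ s.card ≤ mu w I s b (fun y => ind (A y)) *
      ∏ i ∈ s, mu w I (s.erase i) b fun z => ind (∃ u ∈ I i, A (update z i u)) := by
  induction hs using Finset.Nonempty.cons_induction with
  | singleton a =>
    intro A
    rw [card_singleton, pow_one, prod_singleton, erase_singleton, mu_empty]
    by_cases h : ∃ u ∈ I a, A (update b a u)
    · rw [ind_pos h, mul_one]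
    · rw [ind_neg h, mul_zero, ← insert_empty_eq, mu_insert (notMem_empty a)]
      refine (sum_eq_zero fun t ht => ?_).le
      rw [mu_empty, ind_neg fun q => h ⟨t, ht, q⟩, mul_zero]
  | cons a s ha hs ih =>
    intro A
    rw [cons_eq_insert, card_insert_of_notMem ha, pow_succ', prod_insert ha, erase_insert ha]
    refine mul_le_mul_of_nonneg_left ?_ (mu_nonneg hw fun _ => ind_nonneg _)
    have e : ∀ i ∈ s, (mu w I ((insert a s).erase i) b fun z => ind (∃ u ∈ I i, A (update z i u))) =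
        ∑ t ∈ I a, w a t * mu w I (s.erase i) b
          fun z => ind (∃ u ∈ I i, A (update (update z i u) a t)) := by
      intro i hi
      have hia : a ≠ i := fun e => ha (e ▸ hi)
      rw [erase_insert_of_ne hia, mu_insert fun q => ha (mem_of_mem_erase q)]
      simp only [update_comm hia]
    rw [prod_congr rfl e, mu_insert ha]
    refine hold hs (hw a) (fun _ => mu_nonneg hw fun _ => ind_nonneg _)
      (fun _ _ => mu_nonneg hw fun _ => ind_nonneg _) (mu_nonneg hw fun _ => ind_nonneg _)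
      fun t ht => (ih fun z => A (update z a t)).trans ?_
    exact mul_le_mul_of_nonneg_right (mu_mono hw fun z => ind_mono fun q => ⟨t, ht, q⟩)
      (prod_nonneg fun _ _ => mu_nonneg hw fun _ => ind_nonneg _)

end Pool.Agent.MP_f12303_co.Sh
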