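import Pool.Agent.MP_f12303_co.Sh.Per

/-! Averaging over boxes, the differential inequality and the sharp growth of the volume. -/

set_option autoImplicit false

namespace Pool.Agent.MP_f12303_co.Sh

open Finset Function

variable {n : ℕ}

/-- Weight `θ` on the extreme levels. -/
noncomputable def wt (lo hi : Fin n → ℤ) (θ : ℝ) (j : Fin n) (t : ℤ) : ℝ :=
  if t = lo j ∨ t = hi j then θ else 1

theorem wt_nonneg (lo hi : Fin n → ℤ) {θ : ℝ} (h : 0 ≤ θ) (j : Fin n) (t : ℤ) :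
    0 ≤ wt lo hi θ j t := by
  unfold wt; split_ifs
  · exact h
  · exact zero_le_one

theorem prod_ind (p : Fin n → Prop) : ∏ j, ind (p j) = ind (∀ j, p j) := by
  by_cases h : ∀ j, p j
  · rw [ind_pos h]; exact prod_eq_one fun j _ => ind_pos (h j)
  · rw [ind_neg h]
    obtain ⟨j, hj⟩ := not_forall.1 h
    exact prod_eq_zero (mem_univ j) (ind_neg hj)

theorem mu_avg (lo hi : Fin n → ℤ) (θ : ℝ) (s : Finset (Fin n)) (x : Fin n → ℤ)
    (G : (Fin n → ℤ) → ℝ) :
    mu (wt lo hi θ) (fun j => Icc (lo j) (hi j)) s x G =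
      ∑ ε : Fin n → Bool, (∏ j, bif ε j then θ else 1 - θ) * ∑ z ∈ Bx (fun j =>
        Icc (bif ε j then lo j else lo j + 1) (bif ε j then hi j else hi j - 1)) s x, G z := by
  set J : Bool → Fin n → Finset ℤ := fun e j =>
    Icc (bif e then lo j else lo j + 1) (bif e then hi j else hi j - 1) with hJ
  have h1 : ∀ ε : Fin n → Bool, ∑ z ∈ Bx (fun j => J (ε j) j) s x, G z =
      ∑ z ∈ Bx (fun j => Icc (lo j) (hi j)) s x, (∏ j, ind (j ∈ s → z j ∈ J (ε j) j)) * G z := by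
    intro ε
    refine (sum_congr rfl ?_).trans (sum_subset ?_ ?_)
    · intro z hz
      rw [prod_ind, ind_pos (mem_Bx.1 hz).1, one_mul]
    · intro z hz
      refine mem_Bx.2 ⟨fun j hj => ?_, (mem_Bx.1 hz).2⟩
      have := (mem_Bx.1 hz).1 j hj
      revert this
      cases ε j <;> simp only [hJ, cond_true, cond_false, mem_Icc] <;> omega
    · intro z hz hn
      rw [prod_ind, ind_neg fun q => hn (mem_Bx.2 ⟨q, (mem_Bx.1 hz).2⟩), zero_mul]
  change _ = ∑ ε : Fin n → Bool, _ * ∑ z ∈ Bx (fun j => J (ε j) j) s x, G z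
  simp only [h1, mul_sum]
  rw [sum_comm]
  refine sum_congr rfl fun z hz => ?_
  simp only [← mul_assoc, ← prod_mul_distrib]
  rw [← sum_mul, ← Fintype.piFinset_univ,
    ← prod_univ_sum (fun _ => (univ : Finset Bool))
      fun j e => (bif e then θ else 1 - θ) * ind (j ∈ s → z j ∈ J e j)]
  congr 1
  rw [← prod_subset (subset_univ s)]
  · refine prod_congr rfl fun j hj => ?_
    have h2 := mem_Icc.1 ((mem_Bx.1 hz).1 j hj)
    rw [Fintype.sum_bool, ind_pos (p := j ∈ s → z j ∈ J true j) fun _ => (mem_Bx.1 hz).1 j hj]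
    unfold wt
    split_ifs with h
    · rw [ind_neg fun q => by have := mem_Icc.1 (q hj); simp only [cond_false] at this; omega]
      simp
    · rw [ind_pos fun _ => mem_Icc.2 (by simp only [cond_false]; omega)]
      simp
  · intro j _ hj
    rw [Fintype.sum_bool, ind_pos fun q => absurd q hj, ind_pos fun q => absurd q hj]
    simp

theorem avg_ineq {M : Set (Fin n → ℤ)} (h : LocMin M) {lo hi : Fin n → ℤ} (x : Fin n → ℤ)
    (h0 : ∀ j, lo j + 2 ≤ hi j) {θ : ℝ} (h1 : 0 ≤ θ) (h2 : θ ≤ 1) :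
    0 ≤ ∑ i, mu (wt lo hi θ) (fun j => Icc (lo j) (hi j)) (univ.erase i) x (df M lo hi i) := by
  simp only [mu_avg]
  rw [sum_comm]
  refine sum_nonneg fun ε _ => ?_
  rw [← mul_sum]
  refine mul_nonneg (prod_nonneg fun j _ => ?_) (box_ineq h x (fun j => ?_) (fun j => ?_)
    (fun j => ?_) fun j => ?_)
  · cases ε j
    · exact sub_nonneg.2 h2
    · exact h1
  all_goals have := h0 j; cases ε j <;> (try simp only [cond_true, cond_false]) <;> omega

theorem mu_deriv (lo hi : Fin n → ℤ) (h0 : ∀ j, lo j < hi j) (x : Fin n → ℤ)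
    (G : (Fin n → ℤ) → ℝ) (θ : ℝ) :
    HasDerivAt (fun θ => mu (wt lo hi θ) (fun j => Icc (lo j) (hi j)) univ x G)
      (∑ i, mu (wt lo hi θ) (fun j => Icc (lo j) (hi j)) (univ.erase i) x
        fun z => G (update z i (lo i)) + G (update z i (hi i))) θ := by
  have h1 : ∀ j t, HasDerivAt (fun θ => wt lo hi θ j t) (ind (t = lo j ∨ t = hi j)) θ := by
    intro j t
    unfold wt
    by_cases h : t = lo j ∨ t = hi j
    · simp only [if_pos h, ind_pos h]; exact hasDerivAt_id θ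
    · simp only [if_neg h, ind_neg h]; exact hasDerivAt_const θ 1
  have h2 := HasDerivAt.fun_sum (u := Bx (fun j => Icc (lo j) (hi j)) univ x) fun y _ =>
    (HasDerivAt.fun_finsetProd (u := univ) fun j _ => h1 j (y j)).mul_const (G y)
  refine h2.congr_deriv ?_
  simp only [sum_mul]
  rw [sum_comm]
  refine sum_congr rfl fun i _ => ?_
  conv_lhs => rw [← insert_erase (mem_univ i), sum_Bx_insert (notMem_erase i _),
    erase_insert (notMem_erase i _)]
  refine sum_congr rfl fun z _ => ?_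
  have e : ∀ t, ∏ j ∈ univ.erase i, wt lo hi θ j (update z i t j) =
      ∏ j ∈ univ.erase i, wt lo hi θ j (z j) := fun t =>
    prod_congr rfl fun j hj => by rw [update_of_ne (mem_erase.1 hj).1]
  simp only [e, update_self, smul_eq_mul, mul_assoc]
  rw [← mul_sum, ← sum_subset (s₁ := {lo i, hi i}), sum_pair (h0 i).ne, ind_pos (Or.inl rfl),
    ind_pos (Or.inr rfl), one_mul, one_mul]
  · intro t ht
    have := h0 i
    simp only [mem_insert, mem_singleton, mem_Icc] at ht ⊢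
    omega
  · intro t _ ht
    rw [ind_neg (by simpa using ht), zero_mul]

theorem ode {N : ℕ} (hN : N ≠ 0) {W W' : ℝ → ℝ} (hd : ∀ θ, HasDerivAt W (W' θ) θ)
    (h : ∀ θ ∈ Set.Icc (0 : ℝ) 1, 0 < W θ ∧ 0 ≤ W' θ ∧ W θ ^ N ≤ W θ * (W' θ / N) ^ N) :
    W 0 ^ (N : ℝ)⁻¹ + 1 ≤ W 1 ^ (N : ℝ)⁻¹ := by
  have h1 : ∀ θ ∈ Set.Icc (0 : ℝ) 1, HasDerivAt (fun θ => W θ ^ (N : ℝ)⁻¹ - θ)
      (W' θ * (N : ℝ)⁻¹ * W θ ^ ((N : ℝ)⁻¹ - 1) - 1) θ := fun θ hθ =>
    ((hd θ).rpow_const (Or.inl (h θ hθ).1.ne')).sub (hasDerivAt_id θ)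
  have h2 := monotoneOn_of_deriv_nonneg (convex_Icc (0 : ℝ) 1)
    (fun θ hθ => (h1 θ hθ).continuousAt.continuousWithinAt)
    (fun θ hθ => (h1 θ (interior_subset hθ)).differentiableAt.differentiableWithinAt)
    (fun θ hθ => by
      obtain ⟨a1, a2, a3⟩ := h θ (interior_subset hθ)
      have a4 : W θ ≤ W θ ^ (N : ℝ)⁻¹ * (W' θ / N) := by
        refine le_of_pow_le_pow_left₀ hN (by positivity) ?_
        rwa [mul_pow, Real.rpow_inv_natCast_pow a1.le hN]
      rw [(h1 θ (interior_subset hθ)).deriv, Real.rpow_sub_one a1.ne', sub_nonneg, ← mul_div_assoc,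
        le_div_iff₀ a1]
      rw [div_eq_mul_inv] at a4
      linarith)
  have := h2 (Set.left_mem_Icc.2 zero_le_one) (Set.right_mem_Icc.2 zero_le_one) zero_le_one
  simp only at this
  linarith

theorem ncard_eq (M : Set (Fin n → ℤ)) (B : Finset (Fin n → ℤ)) :
    ((M ∩ B).ncard : ℝ) = ∑ y ∈ B, ind (y ∈ M) := by
  classical
  have : M ∩ B = ↑(B.filter fun y => y ∈ M) := by ext y; simp [and_comm]
  rw [this, Set.ncard_coe_finset, card_filter]
  push_cast
  refine sum_congr rfl fun y _ => ?_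
  unfold ind
  congr

theorem growth_aux (hn : n ≠ 0) {M : Set (Fin n → ℤ)} (h : LocMin M) {lo hi : Fin n → ℤ}
    (x : Fin n → ℤ) (h0 : ∀ j, lo j + 2 ≤ hi j) {y : Fin n → ℤ} (hy : y ∈ M)
    (hy' : ∀ j, lo j < y j ∧ y j < hi j) :
    (mu (wt lo hi 0) (fun j => Icc (lo j) (hi j)) univ x fun y => ind (y ∈ M)) ^ (n : ℝ)⁻¹ + 1 ≤
      (mu (wt lo hi 1) (fun j => Icc (lo j) (hi j)) univ x fun y => ind (y ∈ M)) ^ (n : ℝ)⁻¹ := by
  have hd := mu_deriv lo hi (fun j => by have := h0 j; omega) x fun y => ind (y ∈ M)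
  have := ode hn hd ?_
  · exact this
  intro θ hθ
  have hw := wt_nonneg lo hi hθ.1
  have hp : 0 < mu (wt lo hi θ) (fun j => Icc (lo j) (hi j)) univ x fun y => ind (y ∈ M) := by
    refine sum_pos' (fun y _ => mul_nonneg (prod_nonneg fun j _ => hw j _) (ind_nonneg _))
      ⟨y, mem_Bx.2 ⟨fun j _ => mem_Icc.2 ⟨(hy' j).1.le, (hy' j).2.le⟩, by simp⟩, ?_⟩
    have : ∏ j, wt lo hi θ j (y j) = 1 :=
      prod_eq_one fun j _ => if_neg (by have := hy' j; omega)
    simp only [this, ind_pos hy, mul_one, zero_lt_one]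
  have hs : (univ : Finset (Fin n)).Nonempty := ⟨⟨0, Nat.pos_of_ne_zero hn⟩, mem_univ _⟩
  have P0 : ∀ i, 0 ≤ mu (wt lo hi θ) (fun j => Icc (lo j) (hi j)) (univ.erase i) x
      fun z => ind (∃ u ∈ Icc (lo i) (hi i), update z i u ∈ M) :=
    fun i => mu_nonneg hw fun _ => ind_nonneg _
  have a1 := lw (I := fun j => Icc (lo j) (hi j)) (b := x) hw hs fun y => y ∈ M
  have a2 := amgm hs fun i _ => P0 i
  have a3 := avg_ineq h x h0 hθ.1 hθ.2
  have a4 : ∑ i, (mu (wt lo hi θ) (fun j => Icc (lo j) (hi j)) (univ.erase i) x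
      fun z => ind (∃ u ∈ Icc (lo i) (hi i), update z i u ∈ M)) ≤
      ∑ i, mu (wt lo hi θ) (fun j => Icc (lo j) (hi j)) (univ.erase i) x
        fun z => ind (update z i (lo i) ∈ M) + ind (update z i (hi i) ∈ M) := by
    simp only [mu, df, mul_sub, sum_sub_distrib] at a3 ⊢
    linarith
  have a5 := sum_nonneg fun i (_ : i ∈ univ) => P0 i
  rw [card_univ, Fintype.card_fin] at a1 a2
  exact ⟨hp, a5.trans a4, a1.trans (mul_le_mul_of_nonneg_left (a2.trans (pow_le_pow_left₀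
    (div_nonneg a5 n.cast_nonneg) (div_le_div_of_nonneg_right a4 n.cast_nonneg) n)) hp.le)⟩

theorem growth (hn : n ≠ 0) {M : Set (Fin n → ℤ)} (h : LocMin M) (x : Fin n → ℤ) (k : ℕ)
    (hne : (M ∩ box x k).Nonempty) :
    ((M ∩ box x k).ncard : ℝ) ^ (n : ℝ)⁻¹ + 1 ≤ ((M ∩ box x (k + 1)).ncard : ℝ) ^ (n : ℝ)⁻¹ := by
  obtain ⟨lo, hlo⟩ : ∃ lo : Fin n → ℤ, ∀ j, lo j = x j - (k + 1) := ⟨_, fun _ => rfl⟩
  obtain ⟨hi, hhi⟩ : ∃ hi : Fin n → ℤ, ∀ j, hi j = x j + (k + 1) := ⟨_, fun _ => rfl⟩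
  have hB : Bx (fun j => Icc (lo j) (hi j)) univ x = box x (k + 1) := by
    simp [Bx, box, hlo, hhi]
  have hin : ∀ y ∈ box x k, ∀ j, lo j < y j ∧ y j < hi j := fun y hy j => by
    have := abs_le.1 (mem_box.1 hy j)
    rw [hlo, hhi]; omega
  have e0 : mu (wt lo hi 0) (fun j => Icc (lo j) (hi j)) univ x (fun y => ind (y ∈ M)) =
      (M ∩ box x k).ncard := by
    rw [ncard_eq, mu, hB]
    refine ((sum_congr rfl fun y hy => ?_).trans (sum_subset (box_mono x k.le_succ) ?_)).symm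
    · have : ∏ j, wt lo hi 0 j (y j) = 1 :=
        prod_eq_one fun j _ => if_neg (by have := hin y hy j; omega)
      rw [this, one_mul]
    · intro y hy hn
      obtain ⟨j, hj⟩ := not_forall.1 (mt mem_box.2 hn)
      have h1 := abs_le.1 (mem_box.1 hy j)
      rw [abs_le] at hj
      have h2 : wt lo hi 0 j (y j) = 0 := if_pos (by rw [hlo, hhi]; push_cast at h1; omega)
      rw [prod_eq_zero (mem_univ j) h2, zero_mul]
  have e1 : mu (wt lo hi 1) (fun j => Icc (lo j) (hi j)) univ x (fun y => ind (y ∈ M)) =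
      (M ∩ box x (k + 1)).ncard := by
    rw [ncard_eq, mu, hB]
    simp [wt]
  obtain ⟨y, hy, hy'⟩ := hne
  rw [← e0, ← e1]
  exact growth_aux hn h x (fun j => by rw [hlo, hhi]; omega) hy (hin y hy')

theorem orthant (hn : n ≠ 0) : IsMinimalSubgraph {y : Fin n → ℤ | ∀ i, 0 ≤ y i} ∧
    ∀ k : ℕ, (({y : Fin n → ℤ | ∀ i, 0 ≤ y i} ∩ box (0 : Fin n → ℤ) k).ncard : ℝ) ^ (n : ℝ)⁻¹ = k + 1 := by
  refine ⟨minimal_of_locMin (locMin_of_mono fun i y hy j => (hy j).trans (le_up i y j))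
    ⟨0, fun _ => le_rfl⟩ fun e => ?_, fun k => ?_⟩
  · have : (fun _ => -1) ∈ {y : Fin n → ℤ | ∀ i, 0 ≤ y i} := e ▸ Set.mem_univ _
    exact absurd (this ⟨0, Nat.pos_of_ne_zero hn⟩) (by norm_num)
  · have : {y : Fin n → ℤ | ∀ i, 0 ≤ y i} ∩ box (0 : Fin n → ℤ) k =
        ↑(Fintype.piFinset fun _ : Fin n => Icc (0 : ℤ) k) := by
      ext y
      simp only [Set.mem_inter_iff, Set.mem_ofPred_eq, mem_coe, mem_box, Fintype.mem_piFinset,
        mem_Icc, Pi.zero_apply, sub_zero, abs_le, ← forall_and]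
      exact forall_congr' fun i => by omega
    rw [this, Set.ncard_coe_finset, Fintype.card_piFinset]
    simp only [Int.card_Icc, sub_zero, prod_const, card_univ, Fintype.card_fin,
      Int.toNat_natCast_add_one]
    push_cast
    exact Real.pow_rpow_inv_natCast (by positivity) hn

end Pool.Agent.MP_f12303_co.Sh
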