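import Pool.Agent.MP_f12303_co.Sh.LW
import Pool.Agent.Mg.Ff12303.Gc36b7b

/-! The perimeter as a sum over axis lines; comparison in boxes; monotone sets are minimal. -/

set_option autoImplicit false

namespace Pool.Agent.MP_f12303_co.Sh

open Finset Function

variable {n : ℕ}

/-- The upper neighbour in direction `i`. -/
def up (i : Fin n) (y : Fin n → ℤ) : Fin n → ℤ := update y i (y i + 1)

theorem adj_up (i : Fin n) (y : Fin n → ℤ) : LatticeAdj y (up i y) := by
  have := latticeAdj_update y i (y i) (y i + 1) (by ring)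
  rwa [update_eq_self] at this

theorem le_up (i : Fin n) (y : Fin n → ℤ) : y ≤ up i y := fun j => by
  by_cases e : j = i
  · simp [up, e]
  · simp [up, update_of_ne e]

theorem adj_cases {x y : Fin n → ℤ} (h : LatticeAdj x y) : ∃ i, y = up i x ∨ x = up i y := by
  unfold LatticeAdj at h
  obtain ⟨i, -, hi⟩ := exists_ne_zero_of_sum_ne_zero (h.trans_ne one_ne_zero)
  rw [← add_sum_erase _ _ (mem_univ i)] at h
  have h0 : 0 ≤ ∑ j ∈ univ.erase i, (x j - y j) ^ 2 := sum_nonneg fun _ _ => sq_nonneg _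
  have h1 : 0 < (x i - y i) ^ 2 := (sq_nonneg _).lt_of_ne hi.symm
  have h2 : (x i - y i) ^ 2 = 1 := by omega
  have h3 := (sum_eq_zero_iff_of_nonneg fun j _ => sq_nonneg (x j - y j)).1
    (show ∑ j ∈ univ.erase i, (x j - y j) ^ 2 = 0 by omega)
  have h4 : ∀ j, j ≠ i → x j = y j := fun j hj =>
    sub_eq_zero.1 (pow_eq_zero_iff two_ne_zero |>.1 (h3 j (by simp [hj])))
  refine ⟨i, ?_⟩
  rcases sq_eq_one_iff.1 h2 with e | e
  · right
    funext j
    by_cases hj : j = i
    · subst hj; simp [up]; omega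
    · simp [up, update_of_ne hj, h4 j hj]
  · left
    funext j
    by_cases hj : j = i
    · subst hj; simp [up]; omega
    · simp [up, update_of_ne hj, h4 j hj]

theorem mem_edgesAt {U : Set (Fin n → ℤ)} {x y : Fin n → ℤ} (h : LatticeAdj x y) :
    s(x, y) ∈ edgesAt U ↔ x ∈ U ∨ y ∈ U := by
  have key : ∀ x y : Fin n → ℤ, LatticeAdj x y → x ∈ U → s(x, y) ∈ edgesAt U := by
    intro x y h hx
    refine ⟨x, y, rfl, h, hx, ?_⟩
    by_cases hy : y ∈ U
    · exact Or.inl hy
    · exact Or.inr ⟨hy, x, hx, latticeAdj_symm h⟩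
  constructor
  · rintro ⟨a, b, e, -, ha, -⟩
    rcases Sym2.eq_iff.1 e with ⟨rfl, rfl⟩ | ⟨rfl, rfl⟩
    · exact Or.inl ha
    · exact Or.inr ha
  · rintro (hx | hy)
    · exact key x y h hx
    · rw [Sym2.eq_swap]; exact key y x (latticeAdj_symm h) hy

theorem mem_edgeBoundary {M : Set (Fin n → ℤ)} {x y : Fin n → ℤ} (h : LatticeAdj x y) :
    s(x, y) ∈ edgeBoundary M ↔ ¬ (x ∈ M ↔ y ∈ M) := by
  constructor
  · rintro ⟨a, b, e, -, ha, hb⟩
    rcases Sym2.eq_iff.1 e with ⟨rfl, rfl⟩ | ⟨rfl, rfl⟩ <;> tauto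
  · intro h'
    by_cases hx : x ∈ M
    · exact ⟨x, y, rfl, h, hx, by tauto⟩
    · exact ⟨y, x, Sym2.eq_swap, latticeAdj_symm h, by tauto, hx⟩

theorem per_eq (M U : Set (Fin n → ℤ)) (E : Fin n → Finset (Fin n → ℤ))
    (hE : ∀ i y, y ∈ E i ↔ y ∈ U ∨ up i y ∈ U) :
    ((edgeBoundary M ∩ edgesAt U).ncard : ℝ) =
      ∑ i, ∑ y ∈ E i, ind (¬ (y ∈ M ↔ up i y ∈ M)) := by
  classical
  have inj : Injective fun p : (Σ _ : Fin n, Fin n → ℤ) => s(p.2, up p.1 p.2) := by
    rintro ⟨i, y⟩ ⟨i', y'⟩ e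
    rcases Sym2.eq_iff.1 e with ⟨e1, e2⟩ | ⟨e1, e2⟩
    · dsimp only at e1 e2
      subst e1
      by_cases hi : i = i'
      · rw [hi]
      · have := congrFun e2 i
        simp [up, update_of_ne hi] at this
    · dsimp only at e1 e2
      have h1 := congrFun e1 i'
      have h2 : y i' ≤ up i y i' := le_up i y i'
      rw [e2] at h2
      simp only [up, update_self] at h1
      omega
  have e : edgeBoundary M ∩ edgesAt U = (fun p : (Σ _ : Fin n, Fin n → ℤ) => s(p.2, up p.1 p.2)) ''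
      ((univ.sigma E).filter fun p => ¬ (p.2 ∈ M ↔ up p.1 p.2 ∈ M) : Finset _) := by
    ext e
    simp only [Set.mem_image, coe_filter, mem_sigma, mem_univ, true_and, Set.mem_ofPred_eq, hE]
    constructor
    · rintro ⟨h1, h2⟩
      obtain ⟨x, y, rfl, h, -⟩ := id h1
      obtain ⟨i, rfl | rfl⟩ := adj_cases h
      · exact ⟨⟨i, x⟩, ⟨(mem_edgesAt h).1 h2, (mem_edgeBoundary h).1 h1⟩, rfl⟩
      · rw [Sym2.eq_swap] at h1 h2
        exact ⟨⟨i, y⟩, ⟨(mem_edgesAt (adj_up i y)).1 h2, (mem_edgeBoundary (adj_up i y)).1 h1⟩,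
          Sym2.eq_swap⟩
    · rintro ⟨⟨i, y⟩, ⟨h1, h2⟩, rfl⟩
      exact ⟨(mem_edgeBoundary (adj_up i y)).2 h2, (mem_edgesAt (adj_up i y)).2 h1⟩
  rw [e, Set.ncard_image_of_injective _ inj, Set.ncard_coe_finset, card_filter, sum_sigma]
  push_cast
  refine sum_congr rfl fun i _ => sum_congr rfl fun y _ => ?_
  unfold ind
  congr

/-- The number of switches of `P` between `u` and `v`. -/
noncomputable def cs (P : ℤ → Prop) (u v : ℤ) : ℝ := ∑ t ∈ Ico u v, ind (¬ (P t ↔ P (t + 1)))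

theorem cs_add (P : ℤ → Prop) {u m v : ℤ} (h1 : u ≤ m) (h2 : m ≤ v) :
    cs P u v = cs P u m + cs P m v := by
  unfold cs
  rw [← sum_union (Ico_disjoint_Ico_consecutive u m v), Ico_union_Ico_eq_Ico h1 h2]

theorem cs_tri (P : ℤ → Prop) {u v : ℤ} (h : u ≤ v) : |ind (P u) - ind (P v)| ≤ cs P u v := by
  induction v, h using Int.leInduction with
  | base => simp [cs]
  | succ v hv ih =>
    have e : Ico v (v + 1) = {v} := by ext t; simp only [mem_Ico, mem_singleton]; omega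
    have h1 : |ind (P v) - ind (P (v + 1))| ≤ cs P v (v + 1) := by
      rw [cs, e, sum_singleton]
      by_cases a : P v <;> by_cases b : P (v + 1) <;> simp [ind, a, b]
    rw [cs_add P hv (by omega : v ≤ v + 1)]
    exact (abs_sub_le _ _ _).trans (add_le_add ih h1)

theorem cs_line (P : ℤ → Prop) {u lo hi v : ℤ} (h1 : u ≤ lo) (h2 : lo ≤ hi) (h3 : hi ≤ v) :
    ind (P u) + ind (P v) + 2 * ind (∃ t ∈ Icc lo hi, P t) ≤
      cs P u v + 2 * (ind (P lo) + ind (P hi)) := by
  have a1 := (abs_le.1 (cs_tri P h1)).2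
  have a2 := (abs_le.1 (cs_tri P h3)).1
  rw [cs_add P h1 (h2.trans h3), cs_add P h2 h3]
  by_cases h : ∃ t ∈ Icc lo hi, P t
  · rw [ind_pos h]
    obtain ⟨t, ht, hP⟩ := h
    rw [mem_Icc] at ht
    have a3 := (abs_le.1 (cs_tri P ht.1)).1
    have a4 := (abs_le.1 (cs_tri P ht.2)).2
    rw [ind_pos hP] at a3 a4
    rw [cs_add P ht.1 ht.2]
    linarith
  · have a3 := (abs_nonneg _).trans (cs_tri P h2)
    have := ind_nonneg (P lo)
    have := ind_nonneg (P hi)
    rw [ind_neg h]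
    linarith

theorem cs_cut (P : ℤ → Prop) {a b : ℤ} (h : a ≤ b) :
    cs (fun t => P t ∧ ¬ (a ≤ t ∧ t ≤ b)) (a - 1) (b + 1) ≤ ind (P (a - 1)) + ind (P (b + 1)) := by
  have e1 : Ico (a - 1) a = {a - 1} := by ext t; simp only [mem_Ico, mem_singleton]; omega
  have e2 : Ico b (b + 1) = {b} := by ext t; simp only [mem_Ico, mem_singleton]; omega
  rw [cs_add _ (by omega : a - 1 ≤ a) (by omega), cs_add _ h (by omega : b ≤ b + 1)]
  unfold cs
  rw [e1, e2, sum_singleton, sum_singleton, sum_eq_zero, zero_add]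
  · refine add_le_add (ind_mono fun q => ?_) (ind_mono fun q => ?_)
    · by_contra r
      exact q ⟨fun s => absurd s.1 r, fun s => absurd ⟨by omega, by omega⟩ s.2⟩
    · by_contra r
      exact q ⟨fun s => absurd ⟨h, le_rfl⟩ s.2, fun s => absurd s.1 r⟩
  · intro t ht
    rw [mem_Ico] at ht
    exact ind_neg fun q => q ⟨fun s => absurd ⟨by omega, by omega⟩ s.2,
      fun s => absurd ⟨by omega, by omega⟩ s.2⟩

/-- The defect of a line. -/
noncomputable def df (M : Set (Fin n → ℤ)) (lo hi : Fin n → ℤ) (i : Fin n) (z : Fin n → ℤ) : ℝ :=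
  ind (update z i (lo i) ∈ M) + ind (update z i (hi i) ∈ M) -
    ind (∃ u ∈ Icc (lo i) (hi i), update z i u ∈ M)

theorem box_ineq {M : Set (Fin n → ℤ)} (h : LocMin M) {a b lo hi : Fin n → ℤ} (x : Fin n → ℤ)
    (h0 : ∀ j, a j ≤ b j) (h1 : ∀ j, a j - 1 ≤ lo j) (h2 : ∀ j, lo j ≤ hi j)
    (h3 : ∀ j, hi j ≤ b j + 1) :
    0 ≤ ∑ i, ∑ z ∈ Bx (fun j => Icc (a j) (b j)) (univ.erase i) x, df M lo hi i z := by
  set J : Fin n → Finset ℤ := fun j => Icc (a j) (b j) with hJ
  set U : Set (Fin n → ℤ) := ↑(Bx J univ x) with hU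
  have mU : ∀ y, y ∈ U ↔ ∀ j, a j ≤ y j ∧ y j ≤ b j := fun y => by simp [hU, mem_Bx, hJ]
  have hE : ∀ i y, y ∈ Bx (update J i (Ico (a i - 1) (b i + 1))) univ x ↔ y ∈ U ∨ up i y ∈ U := by
    intro i y
    have e1 : ∀ p : Fin n → Prop, (∀ j, p j) ↔ p i ∧ ∀ j, j ≠ i → p j := fun p =>
      ⟨fun q => ⟨q i, fun j _ => q j⟩, fun q j => if e : j = i then e ▸ q.1 else q.2 j e⟩
    have e2 : (∀ j, j ≠ i → y j ∈ update J i (Ico (a i - 1) (b i + 1)) j) ↔
        ∀ j, j ≠ i → a j ≤ y j ∧ y j ≤ b j :=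
      forall₂_congr fun j hj => by simp [update_of_ne hj, hJ]
    have e3 : (∀ j, j ≠ i → a j ≤ up i y j ∧ up i y j ≤ b j) ↔
        ∀ j, j ≠ i → a j ≤ y j ∧ y j ≤ b j :=
      forall₂_congr fun j hj => by simp [up, update_of_ne hj]
    rw [mem_Bx, mU, mU, e1 fun j => a j ≤ y j ∧ y j ≤ b j, e1 fun j => a j ≤ up i y j ∧ up i y j ≤ b j,
      e3]
    simp only [mem_univ, forall_true_left, not_true_eq_false, IsEmpty.forall_iff, implies_true,
      and_true]
    rw [e1, e2, ← or_and_right]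
    refine and_congr_left fun _ => ?_
    have := h0 i
    simp only [up, update_self, mem_Ico]
    omega
  have key : ∀ (N : Set (Fin n → ℤ)), ((edgeBoundary N ∩ edgesAt U).ncard : ℝ) =
      ∑ i, ∑ z ∈ Bx J (univ.erase i) x, cs (fun t => update z i t ∈ N) (a i - 1) (b i + 1) := by
    intro N
    rw [per_eq N U _ hE]
    refine sum_congr rfl fun i _ => ?_
    have e : Bx (update J i (Ico (a i - 1) (b i + 1))) (univ.erase i) x = Bx J (univ.erase i) x := by
      ext y
      simp only [mem_Bx]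
      exact and_congr_left fun _ => forall₂_congr fun j hj => by
        rw [update_of_ne (mem_erase.1 hj).1]
    rw [← insert_erase (mem_univ i), sum_Bx_insert (notMem_erase i _), erase_insert (notMem_erase i _), e]
    simp only [update_self, cs, up, update_idem]
  have hm : ((edgeBoundary M ∩ edgesAt U).ncard : ℝ) ≤ (edgeBoundary (M \ U) ∩ edgesAt U).ncard := by
    exact_mod_cast h U (finite_toSet _) (M \ U) fun z hz => by simp [hz]
  rw [key, key] at hm
  have fin : ∑ i, ∑ z ∈ Bx J (univ.erase i) x,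
      cs (fun t => update z i t ∈ M \ U) (a i - 1) (b i + 1) ≤ ∑ i, ∑ z ∈ Bx J (univ.erase i) x,
      (cs (fun t => update z i t ∈ M) (a i - 1) (b i + 1) + 2 * df M lo hi i z) := by
    refine sum_le_sum fun i _ => sum_le_sum fun z hz => ?_
    have e : (fun t => update z i t ∈ M \ U) = fun t => update z i t ∈ M ∧ ¬ (a i ≤ t ∧ t ≤ b i) := by
      funext t
      refine propext (and_congr_right fun _ => not_congr ((mU _).trans ⟨fun q => ?_, fun q j => ?_⟩))
      · simpa using q i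
      · by_cases r : j = i
        · simpa [r] using q
        · simpa [update_of_ne r, hJ] using (mem_Bx.1 hz).1 j (by simp [r])
    have c1 := cs_cut (fun t => update z i t ∈ M) (h0 i)
    have c2 := cs_line (fun t => update z i t ∈ M) (h1 i) (h2 i) (h3 i)
    rw [e]
    unfold df
    linarith
  simp only [sum_add_distrib, ← mul_sum] at fin
  linarith

theorem locMin_of_mono {M : Set (Fin n → ℤ)} (hM : ∀ i y, y ∈ M → up i y ∈ M) : LocMin M := by
  classical
  intro U hU M' hM'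
  have upi : ∀ i : Fin n, Injective (up i) := fun i y y' e => by
    funext j
    have := congrFun e j
    by_cases hj : j = i
    · subst hj; simpa [up] using this
    · simpa [up, update_of_ne hj] using this
  have ups : ∀ (i : Fin n) y, ∃ z, up i z = y := fun i y =>
    ⟨update y i (y i - 1), by simp [up]⟩
  set E : Fin n → Finset (Fin n → ℤ) := fun i =>
    hU.toFinset ∪ (hU.preimage (upi i).injOn).toFinset with hE
  have mE : ∀ i y, y ∈ E i ↔ y ∈ U ∨ up i y ∈ U := fun i y => by simp [hE]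
  have : ((edgeBoundary M ∩ edgesAt U).ncard : ℝ) ≤ (edgeBoundary M' ∩ edgesAt U).ncard := by
    rw [per_eq M U E mE, per_eq M' U E mE]
    refine sum_le_sum fun i _ => ?_
    set g : (Fin n → ℤ) → ℝ := fun y => ind (y ∈ M') - ind (y ∈ M) with hg
    have g0 : ∀ y, y ∉ U → g y = 0 := fun y hy => by simp [hg, hM' y hy]
    have s1 : ∑ y ∈ E i, g y = ∑ y ∈ hU.toFinset, g y :=
      (sum_subset subset_union_left fun y _ hy => g0 y (by simpa using hy)).symm
    have s2 : ∑ y ∈ E i, g (up i y) = ∑ y ∈ hU.toFinset, g y := by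
      rw [← sum_image (g := up i) (f := g) (upi i).injOn]
      refine (sum_subset (fun y hy => ?_) fun y _ hy => g0 y (by simpa using hy)).symm
      obtain ⟨z, rfl⟩ := ups i y
      exact mem_image_of_mem _ ((mE i z).2 (Or.inr (by simpa using hy)))
    have s3 : ∑ y ∈ E i, ind (¬ (y ∈ M ↔ up i y ∈ M)) + ∑ y ∈ E i, g (up i y) ≤
        ∑ y ∈ E i, ind (¬ (y ∈ M' ↔ up i y ∈ M')) + ∑ y ∈ E i, g y := by
      rw [← sum_add_distrib, ← sum_add_distrib]
      refine sum_le_sum fun y _ => ?_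
      have := hM i y
      by_cases a : y ∈ M <;> by_cases b : up i y ∈ M <;> by_cases c : y ∈ M' <;>
        by_cases d : up i y ∈ M' <;> simp_all [ind]
    linarith
  exact_mod_cast this

theorem minimal_of_locMin {M : Set (Fin n → ℤ)} (h : LocMin M) (h1 : M.Nonempty)
    (h2 : M ≠ Set.univ) : IsMinimalSubgraph M := by
  refine ⟨h1, h2, fun U hU => ⟨Set.inter_subset_right, fun K hK e => ?_⟩⟩
  have := h U hU ((K ∩ U) ∪ (M \ U)) fun z hz => by simp [hz]
  rw [edgeBoundary_inter_closure]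
  refine this.trans (le_of_eq ?_)
  rw [← edgeBoundary_inter_closure]
  congr 3
  ext z
  have e' := Set.ext_iff.1 e z
  have hK' := @hK z
  simp only [graphClosure, exteriorBoundary, Set.mem_inter_iff, Set.mem_union, Set.mem_sdiff,
    Set.mem_ofPred_eq] at e' hK' ⊢
  generalize (∃ w ∈ U, LatticeAdj z w) = A at e' hK' ⊢
  by_cases a : z ∈ K <;> by_cases b : z ∈ U <;> by_cases c : z ∈ M <;> by_cases d : A <;> simp_all

end Pool.Agent.MP_f12303_co.Sh
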